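import Pool.Agent.Helper53.FM.Defs
import Pool.Agent.Helper53.WR.Tower

set_option autoImplicit false
set_option linter.unusedVariables false

/-!
# Project FM: statements of the pieces
-/

namespace Pool.Agent.Helper53.FM.St

open Finset Filter
open Pool.Agent.Helper3.Thin (dig und off Lab GoodSet)
open Pool.Agent.Helper53.WR
open Pool.Agent.Helper48.FB (win crossF Cs WinLe Fs Dk LR zR dens)
open Pool.Agent.Helper53.FM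

section random

/-- FM-A1 (random subset, balanced coverage). Adapt Helper51/FB/FillerSelect.lean. -/
theorem filler_select_bal (X : Finset ℕ) (p : ℕ → ℝ) (hp0 : ∀ x, 0 ≤ p x) (hp1 : ∀ x, p x ≤ 1)
    (hpX : ∀ x, x ∉ X → p x = 0) (Cov Rep : Finset ℕ) (s : ℕ) {J : Type} (fam : Finset J)
    (Y : J → Finset ℕ) (A : J → ℝ) (y : J → ℕ) (hA : ∀ j ∈ fam, 1 ≤ A j)
    (hsum : ∑ n ∈ Cov, Real.exp (-(∑ x ∈ (range n).filter (fun x => x < n - x ∧ n ≤ 4 * x),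
          p x * p (n - x)))
      + ∑ n ∈ Rep, Real.exp (Real.exp 1 *
          ∑ x ∈ (range n).filter (fun x => x < n - x), p x * p (n - x)) / Real.exp 1 ^ s
      + ∑ j ∈ fam, Real.exp (A j * ∑ x ∈ Y j, p x) / A j ^ y j < 1) :
    ∃ R ⊆ X, (∀ x ∈ X, p x = 1 → x ∈ R) ∧
      (∀ n ∈ Cov, ∃ x ∈ R, ∃ z ∈ R, x + z = n ∧ n ≤ 4 * x ∧ n ≤ 4 * z) ∧
      (∀ n ∈ Rep, repF R n ≤ 2 * s) ∧ ∀ j ∈ fam, (R ∩ Y j).card < y j := by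
  sorry

/-- FM-A2. Adapt the proof of `le_pairs_dens` (FB-A3b). -/
theorem le_pairs_dens_bal {b L n : ℕ} (hL : 100 ≤ L) (hb : 4 * b ≤ n) (hn : 16 * L < n + 1) :
    4 * (L : ℝ) - 2 ≤ ∑ x ∈ (range n).filter (fun x => x < n - x ∧ n ≤ 4 * x),
      (if b ≤ x then dens L x else 0) * (if b ≤ n - x then dens L (n - x) else 0) := by
  sorry

/-- FM-A3 (the general random set, balanced). Uses A1, A2. Adapt FB-A4 `filler_core`. -/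
theorem filler_core_bal (b L : ℕ) (hL : 100 ≤ L) {J : Type} (fam : Finset J) (Y : J → Finset ℕ)
    (A : J → ℝ) (y : J → ℕ) (hA : ∀ j ∈ fam, 1 ≤ A j)
    (hsum : ∑ j ∈ fam, Real.exp (A j * ∑ x ∈ (Y j).filter (fun x => b ≤ x ∧ x < 2 ^ L),
      dens L x) / A j ^ y j < 1 / 2) :
    ∃ R : Finset ℕ, (∀ x ∈ R, b ≤ x ∧ x < 2 ^ L) ∧
      (∀ x, b ≤ x → x < 2 ^ L → x < 16 * L → x ∈ R) ∧
      (∀ n, 2 ≤ n → 4 * b ≤ n → n < 2 ^ L → ∃ x ∈ R, ∃ z ∈ R, x + z = n ∧ n ≤ 4 * x ∧ n ≤ 4 * z) ∧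
      (∀ n, repF R n ≤ 201 * L) ∧ WinLe R (16 * L) ∧ ∀ j ∈ fam, (R ∩ Y j).card < y j := by
  sorry

/-- FM-A4 (start of the levels; from A3 with `b = 0`, `L = J` and an empty family). -/
theorem mtop_base (J : ℕ) (hJ : 100 ≤ J) :
    ∃ T, MTop J (Cs * (J + 1)) (Nat.log 2 (16 * J) + 1) 4 (fun _ => Cs * (J + 1))
      (fun _ => Cs * (J + 1)) T (fun _ => T) (fun _ => ∅) := by
  sorry

/-- FM-A5 (start of a tower; from A3). Adapt Helper67/FB/A6.lean. -/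
theorem mi_zero {a u e κ w c : ℕ → ℕ} (h : MTow a u e κ w c) (q : ℕ → ℕ)
    (hq : ∀ i, (q i).Prime ∧ 2 ^ (a i) < q i ∧ q i ≤ 2 ^ (a i + 1)) :
    ∃ O, MI a u e κ w c q 0 O := by
  sorry

/-- FM-A6. Copy of FB-A7a `mean_O` with `MTow` in place of `FTow`. -/
theorem mean_O {a u e κ w c : ℕ → ℕ} (h : MTow a u e κ w c) (k n : ℕ) (O : Finset ℕ)
    (hO : ∀ o ∈ O, o < 2 ^ (4 * a k + 8 * u k)) (hr : ∀ n, repF O n ≤ 4 * Cs * a k) :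
    ∑ x ∈ (range (2 ^ LR a u e k)).filter (fun x => 2 ^ zR a u k ≤ x ∧ x ≤ n ∧ n - x ∈ O),
      dens (LR a u e k) x ≤ 2 ^ 49 * a k := by
  sorry

/-- FM-A7. Copy of FB-A7b `mean_W` with `MTow` in place of `FTow`. -/
theorem mean_W {a u e κ w c : ℕ → ℕ} (h : MTow a u e κ w c) (k n : ℕ) (W : Finset ℕ)
    (hmid : ∀ y h', 2 ^ (4 * a k + 4) ≤ h' → h' ≤ 2 ^ (4 * a k + thT u e k + 13) →
      (win W y h').card ^ 2 * 2 ^ (4 * a k + thT u e k) ≤ 2 ^ 57 * h' ^ 2 * Fs u k) :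
    ∑ x ∈ (range (2 ^ LR a u e k)).filter (fun x => 2 ^ zR a u k ≤ x ∧ x ≤ n ∧ n - x ∈ W),
      dens (LR a u e k) x ≤ 2 ^ 54 * a k := by
  sorry

/-- FM-A8 (far above the gap, with decay in the distance). -/
theorem mean_far3 {a u e κ w c : ℕ → ℕ} (h : MTow a u e κ w c) (k n : ℕ) (W : Finset ℕ)
    (hn : 2 ^ (4 * a k + thT u e k + 128 * e k) ≤ n)
    (hn' : n < 2 ^ (4 * a (k + 1) + 8 * u (k + 1) + 1)) (hwn : WinLe W (2 ^ wA a w k)) :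
    ∑ x ∈ (range (2 ^ LR a u e k)).filter (fun x => 2 ^ zR a u k ≤ x ∧ x ≤ n ∧ n - x ∈ W),
      dens (LR a u e k) x ≤ 1 / 2 ^ (e k + dR a u e k n / 2) := by
  sorry

/-- FM-A9 (the filler of a gap). Uses A3, A6, A7, A8. Adapt FB-A8 `filler_stage`. -/
theorem filler_stage3 {a u e κ w c : ℕ → ℕ} (h : MTow a u e κ w c) (k : ℕ) (q : ℕ → ℕ)
    (hq : ∀ i, (q i).Prime ∧ 2 ^ (a i) < q i ∧ q i ≤ 2 ^ (a i + 1)) (O W : Finset ℕ)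
    (hO : ∀ o ∈ O, o < 2 ^ (4 * a k + 8 * u k)) (hr : ∀ n, repF O n ≤ 4 * Cs * a k)
    (hWr : ∀ x ∈ W, x < 2 ^ (4 * a (k + 1) + 8 * u (k + 1)))
    (hmid : ∀ y h', 2 ^ (4 * a k + 4) ≤ h' → h' ≤ 2 ^ (4 * a k + thT u e k + 13) →
      (win W y h').card ^ 2 * 2 ^ (4 * a k + thT u e k) ≤ 2 ^ 57 * h' ^ 2 * Fs u k)
    (hwn : WinLe W (2 ^ wA a w k)) :
    ∃ R, MR a u e κ q k O W R := by
  sorry

end random

section world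

/-- FM-B1 (choice of `σ`). Adapt Helper28/FB/SigmaSelect2.lean: thresholds depending on `n`, and a
new family of events for short windows. -/
theorem sigma_select3 {q : ℕ} [Fact q.Prime] (Γ : Finset (ZMod q × ZMod q))
    (hΓ : Γ.card ≤ 3 * q) (T O : Finset ℕ) (S : ℕ) (hS : 0 < S) (x H N yS L Y : ℕ)
    (t0 V : ℕ → ℕ) (Mod : Finset ℕ)
    (hMod : ∀ m ∈ Mod, 0 < m) (hTY : ∀ t ∈ T, t < Y) (hOS : ∀ o ∈ O, o < q ^ 4 * S)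
    (τ : ZMod q × ZMod q → ZMod q × ZMod q)
    (hV : ∀ z z' : ℕ, z ≤ z' → (win T z' S).card ≤ V z)
    (hQ : ∀ ν : ℕ, (((Γ ×ˢ Γ) ×ˢ O).filter (fun y =>
        (und y.1.1 (y.1.2 + τ y.1.1) + y.2) % q ^ 4 = ν % q ^ 4)).card ≤ x * H)
    (hM : ∀ m ∈ Mod, ∀ r : ℕ, ((((Γ ×ˢ Γ) ×ˢ ((range S) ×ˢ T)).filter (fun y =>
        (und y.1.1 (y.1.2 + τ y.1.1) + q ^ 4 * (S + y.2.1 + y.2.2)) % m = r % m)).card : ℝ)
          ≤ x * (T.card * ((q : ℝ) ^ 2 * S / m + 1)))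
    (hs : ∀ c m : ℕ, 1 ≤ m → ((Γ ×ˢ Γ).filter (fun p =>
        c ≤ (p.2 + τ p.1).2.val + (p.2 + τ p.1).1.val * q ∧
          (p.2 + τ p.1).2.val + (p.2 + τ p.1).1.val * q < c + m)).card ≤ x * m)
    (AX : ℕ → ℝ) (hAX : ∀ n < N, 1 ≤ AX n)
    (hX : ∀ n < N, (N : ℝ) * 4096 * (Real.exp (AX n *
      ((x : ℝ) * H * V (n / q ^ 4 - 514 - 3 * S) / S)) / AX n ^ t0 n) < 1 / 8)
    (AM : ℕ → ℝ) (hAM : ∀ m ∈ Mod, 1 ≤ AM m) (y : ℕ → ℕ)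
    (hY : ∑ m ∈ Mod, (m : ℝ) * (Real.exp (AM m *
      ((x : ℝ) * (T.card * ((q : ℝ) ^ 2 / m + 1 / S)))) / AM m ^ y m) < 1 / 2)
    (AS : ℝ) (hAS : 1 ≤ AS)
    (hSS : (S : ℝ) * (Real.exp (AS * (9 * (q : ℝ) ^ 2 / S)) / AS ^ yS) < 1 / 4)
    (hL : (q : ℝ) ^ 4 * (2 * S + Y) * Real.exp (-(L : ℝ)) < 1 / 8) :
    ∃ σ : (ZMod q × ZMod q) × (ZMod q × ZMod q) → ℕ, (∀ p, σ p < S) ∧
      (∀ n < N, ∀ ε : Lab, ((Γ ×ˢ Γ).filter (fun p => ∃ o ∈ O, ∃ t ∈ T,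
        elt S τ σ p ε t + o = n)).card < t0 n) ∧
      (∀ m ∈ Mod, ∀ r : ℕ, ((Γ ×ˢ Γ).filter (fun p => ∃ t ∈ T,
        (und p.1 (p.2 + τ p.1) + q ^ 4 * (S + σ p + t)) % m = r % m)).card < y m) ∧
      (∀ s, ((Γ ×ˢ Γ).filter (fun p => σ p = s)).card ≤ yS) ∧
      ∀ c m z : ℕ, 1 ≤ m → ((Γ ×ˢ Γ).filter (fun p =>
        (c ≤ (p.2 + τ p.1).2.val + (p.2 + τ p.1).1.val * q ∧
          (p.2 + τ p.1).2.val + (p.2 + τ p.1).1.val * q < c + m) ∧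
            ∃ t ∈ T, S + σ p + t = z)).card * S ≤ 3 * (x * m * V (z + 1 - 2 * S)) + L * S := by
  sorry

/-- FM-B2 (short windows of a world). Adapt Helper26/FB/WinSmall.lean. -/
theorem world_win_short {q : ℕ} [Fact q.Prime] (Γ : Finset (ZMod q × ZMod q)) (T : Finset ℕ)
    (S x L : ℕ) (V : ℕ → ℕ) (hV : Antitone V) (τ : ZMod q × ZMod q → ZMod q × ZMod q)
    (σ : (ZMod q × ZMod q) × (ZMod q × ZMod q) → ℕ) (hσ : ∀ p, σ p < S)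
    (hs : ∀ c m z : ℕ, 1 ≤ m → ((Γ ×ˢ Γ).filter (fun p =>
        (c ≤ (p.2 + τ p.1).2.val + (p.2 + τ p.1).1.val * q ∧
          (p.2 + τ p.1).2.val + (p.2 + τ p.1).1.val * q < c + m) ∧
            ∃ t ∈ T, S + σ p + t = z)).card * S ≤ 3 * (x * m * V (z + 1 - 2 * S)) + L * S)
    (y h : ℕ) (hh : h ≤ q ^ 4) :
    (win (World Γ T S τ σ) y h).card * S ≤
      4096 * (2 * (3 * (x * (h / q ^ 2 + 2) * V (y / q ^ 4 - 514 - 2 * S)) + L * S)) := by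
  sorry

/-- FM-B3 (long windows of a world). Adapt FB-B6 `world_win_mid`. -/
theorem world_win_long {q : ℕ} [Fact q.Prime] (Γ : Finset (ZMod q × ZMod q)) (T : Finset ℕ)
    (S yS W : ℕ) (τ : ZMod q × ZMod q → ZMod q × ZMod q)
    (σ : (ZMod q × ZMod q) × (ZMod q × ZMod q) → ℕ) (hσ : ∀ p, σ p < S)
    (hy : ∀ s, ((Γ ×ˢ Γ).filter (fun p => σ p = s)).card ≤ yS) (y h : ℕ)
    (hW : ∀ z, y / q ^ 4 ≤ z + 514 + 2 * S → (win T z S).card ≤ W) :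
    (win (World Γ T S τ σ) y h).card ≤ 4096 * ((h / q ^ 4 + 2) * yS * W) := by
  sorry

/-- FM-B4 (balanced sums of two elements of a world). Adapt Helper71/WR/C2.lean. -/
theorem world_cover_bal {q : ℕ} [Fact q.Prime] {Γ : Finset (ZMod q × ZMod q)} (hΓ : GoodSet Γ)
    (T : Finset ℕ) (S c : ℕ) (τ : ZMod q × ZMod q → ZMod q × ZMod q)
    (σ : (ZMod q × ZMod q) × (ZMod q × ZMod q) → ℕ) (hσ : ∀ p, σ p < S) (n : ℕ)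
    (hn : 9 + 8 * S ≤ n / q ^ 4)
    (hc : ∀ m : ℕ, n / q ^ 4 ≤ m + 4 + 4 * S → m ≤ n / q ^ 4 →
      ∃ t ∈ T, ∃ t' ∈ T, t + t' = m ∧ m ≤ c * t ∧ m ≤ c * t') :
    ∃ x ∈ World Γ T S τ σ, ∃ y ∈ World Γ T S τ σ, x + y = n ∧ n ≤ 2 * c * x ∧ n ≤ 2 * c * y := by
  sorry

/-- FM-B5 (one world, numerical hypotheses). Adapt Helper96/FB/B8.lean. -/
theorem world_exists3 {q : ℕ} [Fact q.Prime] (hq : 16 < q) (T O : Finset ℕ) (T' : ℕ → Finset ℕ)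
    (hTT : ∀ i, T' i ⊆ T) (S Y H D x N yS L : ℕ) (t0 W : ℕ → ℕ) (hS : 0 < S) (Mod : Finset ℕ)
    (hMod : ∀ m ∈ Mod, 0 < m ∧ Nat.Coprime q m) (hTm : ∀ m ∈ Mod, ∀ t ∈ T, t < m)
    (hTY : ∀ t ∈ T, t < Y) (hOS : ∀ o ∈ O, o < q ^ 4 * S)
    (hO : ∀ r, (O.filter (fun o => o % q ^ 2 = r)).card ≤ H)
    (hD : ∀ r, (O.filter (fun o => o % q ^ 4 = r)).card ≤ D)
    (hx : (2 * (q : ℝ) ^ 4 + ∑ m ∈ Mod, (m : ℝ)) * 2 ^ 13 < 2 ^ x)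
    (hW : ∀ n < N, ∀ z, n / q ^ 4 ≤ z + 514 + 3 * S → (win T z S).card ≤ W n)
    (AX : ℕ → ℝ) (hAX : ∀ n < N, 1 ≤ AX n)
    (hX : ∀ n < N, (N : ℝ) * 4096 * (Real.exp (AX n * ((x : ℝ) * H * W n / S)) / AX n ^ t0 n)
      < 1 / 8)
    (AM : ℕ → ℝ) (hAM : ∀ m ∈ Mod, 1 ≤ AM m) (y : ℕ → ℕ)
    (hY : ∑ m ∈ Mod, (m : ℝ) * (Real.exp (AM m *
      ((x : ℝ) * (T.card * ((q : ℝ) ^ 2 / m + 1 / S)))) / AM m ^ y m) < 1 / 2)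
    (AS : ℝ) (hAS : 1 ≤ AS)
    (hSS : (S : ℝ) * (Real.exp (AS * (9 * (q : ℝ) ^ 2 / S)) / AS ^ yS) < 1 / 4)
    (hL : (q : ℝ) ^ 4 * (2 * S + Y) * Real.exp (-(L : ℝ)) < 1 / 8) :
    ∃ (A : Finset ℕ) (A' : ℕ → Finset ℕ), (∀ i, A' i ⊆ A) ∧
      (∀ b ∈ A, q ^ 4 * S ≤ b ∧ b < q ^ 4 * (514 + 2 * S + Y)) ∧
      (∀ i f, (∀ n, repF (T' i) n ≤ f) → ∀ n, repF (A' i) n ≤ 4096 ^ 2 * 2592 * f) ∧
      (∀ n g, (∀ m, n / q ^ 4 ≤ m + 1028 + 4 * S → m ≤ n / q ^ 4 → repF T m ≤ g) →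
        repF A n ≤ 4096 ^ 2 * 2592 * g) ∧
      (∀ n c, 9 + 8 * S ≤ n / q ^ 4 →
        (∀ m : ℕ, n / q ^ 4 ≤ m + 4 + 4 * S → m ≤ n / q ^ 4 →
          ∃ t ∈ T, ∃ t' ∈ T, t + t' = m ∧ m ≤ c * t ∧ m ≤ c * t') →
        ∃ x ∈ A, ∃ y ∈ A, x + y = n ∧ n ≤ 2 * c * x ∧ n ≤ 2 * c * y) ∧
      (∀ i n c, 9 + 8 * S ≤ n / q ^ 4 →
        (∀ m : ℕ, n / q ^ 4 ≤ m + 4 + 4 * S → m ≤ n / q ^ 4 →
          ∃ t ∈ T' i, ∃ t' ∈ T' i, t + t' = m ∧ m ≤ c * t ∧ m ≤ c * t') →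
        ∃ x ∈ A' i, ∃ y ∈ A' i, x + y = n ∧ n ≤ 2 * c * x ∧ n ≤ 2 * c * y) ∧
      (∀ m ∈ Mod, ∀ r, (A.filter (fun b => b % m = r)).card ≤ 4096 * y m) ∧
      (∀ n < N, (crossF A O n).card ≤ 4096 * (t0 n * D)) ∧
      (∀ y h W, h ≤ q ^ 4 → (∀ z, y / q ^ 4 ≤ z + 514 + 2 * S → (win T z S).card ≤ W) →
        (win A y h).card * S ≤ 4096 * (2 * (3 * (x * (h / q ^ 2 + 2) * W) + L * S))) ∧
      (∀ y h W, (∀ z, y / q ^ 4 ≤ z + 514 + 2 * S → (win T z S).card ≤ W) →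
        (win A y h).card ≤ 4096 * ((h / q ^ 4 + 2) * yS * W)) := by
  sorry

/-- FM-B6 (numerics of the windows). -/
theorem wn_of3 {a u u' e th w F q : ℕ} (T A : Finset ℕ) (e300 : 300 ≤ e) (eu : 100 * e ≤ u)
    (ua : 100 * u ≤ a) (uu : 6 * u' ≤ 7 * u) (hth : th = 8 * u + 64 * e)
    (hq1 : 2 ^ a < q) (hq2 : q ≤ 2 ^ (a + 1)) (hT : WinLe T (2 ^ w)) (hF : ∀ n, repF T n ≤ F)
    (hFw : F ≤ 2 ^ (2 * w))
    (hA : ∀ b ∈ A, 2 ^ (4 * a + th) ≤ b ∧ b < 2 ^ (4 * (a + u) + 8 * u'))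
    (hs : ∀ y h W, h ≤ q ^ 4 →
      (∀ z, y / q ^ 4 ≤ z + 514 + 2 * 2 ^ th → (win T z (2 ^ th)).card ≤ W) →
      (win A y h).card * 2 ^ th ≤
        4096 * (2 * (3 * (20 * a * (h / q ^ 2 + 2) * W) + 6 * a * 2 ^ th)))
    (hl : ∀ y h W, (∀ z, y / q ^ 4 ≤ z + 514 + 2 * 2 ^ th → (win T z (2 ^ th)).card ≤ W) →
      (win A y h).card ≤ 4096 * ((h / q ^ 4 + 2) * 2 ^ (2 * a - th + 7) * W)) :
    WinLe A (2 ^ (w + Nat.log 2 a + 40)) := by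
  sorry

/-- FM-B7 (numerics of the cross sums). `W` bounds the windows of `T` relevant for `n`. -/
theorem cross_numeric {a u u' e w F q : ℕ} (T : Finset ℕ) (e300 : 300 ≤ e) (eu : 100 * e ≤ u)
    (ua : 100 * u ≤ a) (uu : 6 * u' ≤ 7 * u) (h20 : 20 * a ≤ 2 ^ e) (hw : w + 60 ≤ 20 * e)
    (hq1 : 2 ^ a < q) (hq2 : q ≤ 2 ^ (a + 1)) (hT : WinLe T (2 ^ w)) (hF : ∀ n, repF T n ≤ F)
    (hFe : F ≤ 2 ^ e) (N : ℕ) (hN : N = 2 ^ (4 * (a + u) + 8 * u' + 1)) (n : ℕ) (hn : n < N) :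
    ∃ W : ℕ, (∀ z, n / q ^ 4 ≤ z + 514 + 3 * 2 ^ (8 * u + 64 * e) →
        (win T z (2 ^ (8 * u + 64 * e))).card ≤ W) ∧
      (N : ℝ) * 4096 * (Real.exp (2 ^ (e + (Nat.log 2 n - (4 * a + (8 * u + 64 * e))) / 2) *
        (((20 * a : ℕ) : ℝ) * ((2 ^ (4 * u + 8 * e) : ℕ) : ℝ) * W /
          ((2 ^ (8 * u + 64 * e) : ℕ) : ℝ))) /
        (2 ^ (e + (Nat.log 2 n - (4 * a + (8 * u + 64 * e))) / 2)) ^
          tD a e (Nat.log 2 n - (4 * a + (8 * u + 64 * e)))) < 1 / 8 := by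
  sorry

/-- FM-B8 (one world of a tower). Adapt Helper59/FB/World.lean; uses B5, B6, B7, FB-B9b. -/
theorem mtower_world {a u e κ w c : ℕ → ℕ} (h : MTow a u e κ w c) (f g : ℕ → ℕ) (k : ℕ)
    (q : ℕ → ℕ) (hq : ∀ i, (q i).Prime ∧ 2 ^ (a i) < q i ∧ q i ≤ 2 ^ (a i + 1))
    (T O : Finset ℕ) (T' B : ℕ → Finset ℕ)
    (hT : MTop (laT u k) (Fs u k) (w k) (c k) f g T T' B) (hO : MI a u e κ w c q k O) :
    ∃ A A', MW a u e κ w c f g q B k O A A' := by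
  sorry

end world

section tower

/-- FM-C0 (the thresholds for the cross sums are small). -/
theorem cross_le {a u e κ w c : ℕ → ℕ} (h : MTow a u e κ w c) (k d : ℕ) :
    2 * (4096 * (tD (a k) (e k) d * Dk κ k)) ≤ a k := by
  sorry

/-- FM-C1 (one stage). Adapt FB-C1 `fi_step`; uses C0. -/
theorem mi_step {a u e κ w c : ℕ → ℕ} (h : MTow a u e κ w c) (f g : ℕ → ℕ) (k : ℕ) (q : ℕ → ℕ)
    (hq : ∀ i, (q i).Prime ∧ 2 ^ (a i) < q i ∧ q i ≤ 2 ^ (a i + 1)) (B : ℕ → Finset ℕ)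
    (O A R : Finset ℕ) (A' : ℕ → Finset ℕ)
    (hO : MI a u e κ w c q k O) (hA : MW a u e κ w c f g q B k O A A')
    (hR : MR a u e κ q k O A R) :
    MI a u e κ w c q (k + 1) (O ∪ A ∪ R) := by
  sorry

/-- FM-C2 (all stages; uses A5, A9, B8, C1). Adapt Helper87/FB/Pieces.lean. -/
theorem mtower_pieces {a u e κ w c : ℕ → ℕ} (h : MTow a u e κ w c) (f g : ℕ → ℕ → ℕ)
    (T : ℕ → Finset ℕ) (T' B : ℕ → ℕ → Finset ℕ)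
    (hT : ∀ k, MTop (laT u k) (Fs u k) (w k) (c k) (f k) (g k) (T k) (T' k) (B k)) :
    ∃ (q : ℕ → ℕ) (S A R : ℕ → Finset ℕ) (A' : ℕ → ℕ → Finset ℕ),
      (∀ i, (q i).Prime ∧ 2 ^ (a i) < q i ∧ q i ≤ 2 ^ (a i + 1)) ∧
      (∀ k, S (k + 1) = S k ∪ A k ∪ R k) ∧ (∀ k, MI a u e κ w c q k (S k)) ∧
      (∀ k, MW a u e κ w c (f k) (g k) q (B k) k (S k) (A k) (A' k)) ∧
      (∀ k, MR a u e κ q k (S k) (A k) (R k)) := by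
  sorry

/-- FM-C3 (the union of all stages; uses C2). Adapt Helper50/FB/C3.lean. `r` selects the thin
parts of the worlds and `v` their distance from the start of the world. -/
theorem mtower {a u e κ w c : ℕ → ℕ} (h : MTow a u e κ w c) (f g : ℕ → ℕ → ℕ)
    (T : ℕ → Finset ℕ) (T' B : ℕ → ℕ → Finset ℕ)
    (hT : ∀ k, MTop (laT u k) (Fs u k) (w k) (c k) (f k) (g k) (T k) (T' k) (B k)) :
    ∃ A : Set ℕ, (0 ∈ A ∧ 1 ∈ A) ∧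
      (∀ k n, 2 ≤ n → n < 2 ^ zR a u k →
        ∃ x ∈ A, ∃ y ∈ A, x + y = n ∧ n ≤ 2 * c k * x ∧ n ≤ 2 * c k * y) ∧
      (∀ k n, n < 2 ^ zR a u k → rep A n ≤ 4 * Cs * a k) ∧
      (∀ k j G, 4 * a k + thT u e k + 128 * e k ≤ j → j + 1 ≤ zR a u (k + 1) →
        (∀ l, l ≤ 5 → g k (j - 4 * a k - l) ≤ G) → ∀ n, 2 ^ j ≤ n → n < 2 ^ (j + 1) →
          rep A n ≤ 4096 ^ 2 * 2592 * G
            + 2 * (4096 * (tD (a k) (e k) (j - (4 * a k + thT u e k)) * Dk κ k))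
            + 2 * tD (a k) (e k) (j - (4 * a k + thT u e k + 128 * e k))) ∧
      (∀ k J, J ≤ zR a u (k + 1) →
        WinLe (Pool.Agent.Helper48.WR.cut A J) ((k + 2) * 2 ^ (wA a w (k + 1) + 1))) ∧
      ∀ r v : ℕ → ℕ, ∃ A' : Set ℕ, A' ⊆ A ∧
        (∀ n, n < 2 ^ (4 * a 0 + thT u e 0) → rep A' n = 0) ∧
        (∀ k n, 2 ^ (4 * a k + thT u e k) ≤ n → n < 2 ^ (4 * a (k + 1) + thT u e (k + 1)) →
          rep A' n ≤ 4096 ^ 2 * 2592 * f k (r k)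
            + 2 * (4096 * (tD (a k) (e k) (v k) * Dk κ k))) ∧
        ∀ k j, 4 * a k + thT u e k + 9 + v k + Nat.log 2 (c k) ≤ j → j + 1 ≤ zR a u (k + 1) →
          (∀ l, l ≤ 5 → j - 4 * a k - l ∉ B k (r k)) → BCov A' (2 * c k) j := by
  sorry

end tower

section levels

/-- FM-D0 (harmonic sum). -/
theorem sum_tD_le (a e D : ℕ) (he : 1 ≤ e) :
    ∑ d ∈ range D, tD a e d ≤ 44 * a * (Nat.log 2 D + 1) + D := by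
  sorry

/-- FM-D1 (finite theorem; uses A4, C3, D0). -/
theorem finite_thm3 : ∃ c0 s0 : ℕ, ∀ s, s0 ≤ s → ∀ J : ℕ, 100 ≤ J → 14 * Nat.log 2 J ≤ s ^ 2 →
    ∃ (T : Finset ℕ) (T' B : ℕ → Finset ℕ) (g : ℕ → ℕ),
      MTop J (Cs * (J + 1)) (s ^ 4) (2 ^ s) (fun R => (R + 1) * 2 ^ (c0 * s)) g T T' B ∧
      ∑ j ∈ range J, g j ≤ 2 ^ (c0 * s) * J ∧
      ∀ R, (B R).card * (R + 1) ≤ 2 ^ (c0 * s) * J ∧ ∀ j ∈ B R, j < J := by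
  sorry

/-- FM-D2 (infinite theorem; uses C3, D1). -/
theorem infinite_thm3 : ∃ (A : Set ℕ) (C : ℝ), (∀ n, ∃ x ∈ A, ∃ y ∈ A, x + y = n) ∧
    (∀ j : ℕ, (blockMax A j : ℝ) ≤ C * (j + 1)) ∧
    (∀ J : ℕ, 2 ≤ J → ∑ j ∈ range J, (blockMax A j : ℝ) ≤ J * Real.exp (C * √(Real.log J))) ∧
    ∀ ρ : ℝ, 0 ≤ ρ → ρ < 1 → ∃ A' : Set ℕ, A' ⊆ A ∧
      (∀ l n : ℕ, 2 ≤ l → n < 2 ^ l →
        (rep A' n : ℝ) ≤ (l : ℝ) ^ ρ * Real.exp (C * √(Real.log l))) ∧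
      ∀ᶠ J : ℕ in atTop,
        (badCount A' J : ℝ) ≤ (J : ℝ) ^ (1 - ρ) * Real.exp (-√(Real.log J)) := by
  sorry

end levels

end Pool.Agent.Helper53.FM.St
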